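import Pool.Agent.TD.S.Toric
import Pool.Agent.TD.Y.Restr

/-!
# Morphisms of schemes, tropicalizations of subschemes of toric varieties (MP_90358a_ag, section X)
-/

open scoped ContDiff Topology
open AlgebraicGeometry CategoryTheory

namespace Pool.Agent.TD

section Map

variable {X Y : Scheme.{0}} (φ : X ⟶ Y)

/-- The map on points. -/
abbrev ptX (x : Pt X) : Pt Y := φ x

/-- The map on local rings. -/
noncomputable def stX (x : Pt X) : Lr Y (ptX φ x) →+* Lr X x := (φ.stalkMap x).hom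

/-- The preimage of an open subset. -/
abbrev opX (U : Op Y) : Op X := φ ⁻¹ᵁ U

/-- The pull back of functions. -/
noncomputable def fnH (U : Op Y) : Fn Y U →+* Fn X (opX φ U) := (φ.app U).hom

/-- The pull back of functions. -/
noncomputable def fnX {U : Op Y} (f : Fn Y U) : Fn X (opX φ U) := fnH φ U f

/-- Pull back of functions on open subsets. -/
noncomputable def Fns.pb (f : Fns Y) : Fns X := ⟨opX φ f.1, fnX φ f.2⟩

end Map

variable {K : Type} [NormedField K] {X Y : Scheme.{0}}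

/-- The structure of `K`-scheme on `X` such that `φ` is a `K`-morphism. -/
noncomputable def Str.pb (φ : X ⟶ Y) (ι : Str K Y) : Str K X :=
  (fnH φ ⊤).comp ι

namespace An

variable {φ : X ⟶ Y} {ι : Str K Y}

/-- The seminorm of the image of a point. -/
noncomputable def vX (z : An X (Str.pb φ ι)) (a : Lr Y (ptX φ z.pt)) : ℝ := z.v (stX φ z.pt a)

theorem vX_nonneg (z : An X (Str.pb φ ι)) (a : Lr Y (ptX φ z.pt)) : 0 ≤ z.vX a := z.nonneg _

theorem vX_one (z : An X (Str.pb φ ι)) : z.vX 1 = 1 := by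
  show z.v ((φ.stalkMap z.pt).hom 1) = 1
  rw [map_one, z.one]

theorem vX_mul (z : An X (Str.pb φ ι)) (a b : Lr Y (ptX φ z.pt)) :
    z.vX (a * b) = z.vX a * z.vX b := by
  show z.v ((φ.stalkMap z.pt).hom (a * b)) = _
  rw [map_mul, z.mul]
  rfl

theorem vX_add (z : An X (Str.pb φ ι)) (a b : Lr Y (ptX φ z.pt)) :
    z.vX (a + b) ≤ max (z.vX a) (z.vX b) := by
  show z.v ((φ.stalkMap z.pt).hom (a + b)) ≤ _
  rw [map_add]
  exact z.add _ _

theorem vX_ext (z : An X (Str.pb φ ι)) (c : K) : z.vX (gm ⊤ (ptX φ z.pt) trivial (ι c)) = ‖c‖ := by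
  have h := congrArg (fun f => f (ι c)) (congrArg CommRingCat.Hom.hom
    (Scheme.Hom.germ_stalkMap φ ⊤ z.pt trivial))
  exact (congrArg z.v h).trans (z.ext c)

theorem vX_ker (z : An X (Str.pb φ ι)) (a : Lr Y (ptX φ z.pt)) : z.vX a = 0 ↔ ¬ IsUnit a := by
  show z.v ((φ.stalkMap z.pt).hom a) = 0 ↔ ¬ IsUnit a
  rw [z.ker]
  exact not_congr (isUnit_map_iff (φ.stalkMap z.pt).hom a)

/-- The map `X^an → Y^an`. -/
noncomputable def map (φ : X ⟶ Y) (ι : Str K Y) (z : An X (Str.pb φ ι)) : An Y ι where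
  pt := ptX φ z.pt
  v := z.vX
  nonneg := z.vX_nonneg
  one := z.vX_one
  mul := z.vX_mul
  add := z.vX_add
  ext := z.vX_ext
  ker := z.vX_ker

end An

namespace Toric

variable {n : ℕ} {F : Fan n} {ι : Str K Y} (T : Toric F Y ι) (φ : X ⟶ Y)

/-- The tropicalization map `X^an → Trop(Y)`. -/
noncomputable def tropX (z : An X (Str.pb φ ι)) : TropPt F := T.trop (An.map φ ι z)

/-- The tropicalization `Trop(X)`. -/
def TropX : Set (TropPt F) := Set.range (T.tropX φ)

/-- The forms on `Trop(X)`. -/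
noncomputable def lsX : LogSpace (T.TropX φ) (Fin n → ℤ) := (tropLS F).restr (T.TropX φ)

/-- Pull back of forms along the tropicalization map `X^an → Trop(X)`: `log |χ^m|` goes to
`log |χ^m|`. -/
noncomputable def pbX {p q : ℕ} (a : T.TropX φ → Raw (Fin n → ℤ) p q) :
    An X (Str.pb φ ι) → Raw (Fns X) p q :=
  fun z => pullR (fun m => Fns.pb φ (T.cix (An.map φ ι z) m)) (a ⟨T.tropX φ z, z, rfl⟩)

end Toric

end Pool.Agent.TD
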