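import Pool.Agent.TD.X.Map
import Pool.Agent.TD.N.Defs

/-!
# Smooth tropicalizations (MP_90358a_ag, section X)

`φ : X → Y` a closed immersion in a toric variety, `X` integral.  `Trop(X)` is smooth if

* every point `w` has a neighbourhood in `Trop(X)` which is isomorphic by an integral affine map to
  an open subset of `𝕋^k × Σ_M`, `Σ_M` the Bergman fan of a loopless matroid (`LocalModel`), and
* all weights of `Trop(X)` are `1` (`IsWeight`).
-/

open scoped ContDiff Topology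
open AlgebraicGeometry CategoryTheory

namespace Pool.Agent.TD

section Model

/-- `ℝ^k × ℝ^(r + 1)`. -/
abbrev TSp (k r : ℕ) : Type := (Fin k → ℝ) × (Fin (r + 1) → ℝ)

/-- The model `𝕋^k × Σ_M` (modulo the diagonal line of `Σ_M`, that is with `y_0 = 0`);
`𝕋 = [-∞, ∞)` is identified with `[0, ∞)` by the exponential function. -/
def TMod (k r : ℕ) (M : Matroid (Fin (r + 1))) : Set (TSp k r) :=
  {x | (∀ i, 0 ≤ x.1 i) ∧ BergM M x.2 ∧ x.2 0 = 0}

variable {n : ℕ} {F : Fan n}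

/-- `log |χ^m|` at a point of `Trop(Y)`. -/
noncomputable def lgT (m : Fin n → ℤ) (b : TropPt F) : ℝ := Real.log (TropPt.absv m b)

/-- The function `g` is, near the point `b` of `S`, integral affine on `S`: `g = log |χ^m| + c` with
a character `m` which is finite at `b`, and `c ∈ ℝ`. -/
def AffGerm (S : Set (TropPt F)) (b : TropPt F) (g : TropPt F → ℝ) : Prop :=
  ∃ m ∈ perpM b.cone.1, ∃ c : ℝ, ∀ᶠ b' in 𝓝[S] b, g b' = lgT m b' + c

/-- Data of a map `f : Trop(Y) → ℝ^k × ℝ^(r + 1)` on `U` with inverse `g` on `V`. -/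
structure TChart (F : Fan n) where
  k : ℕ
  r : ℕ
  M : Matroid (Fin (r + 1))
  U : Set (TropPt F)
  V : Set (TSp k r)
  f : TropPt F → TSp k r
  g : TSp k r → TropPt F

namespace TChart

variable (C : TChart F) (S : Set (TropPt F))

/-- The open subset `𝕋^k × Σ_M ∩ V` of the model. -/
def Im : Set (TSp C.k C.r) := TMod C.k C.r C.M ∩ C.V

/-- `f` is a homeomorphism, with inverse `g`, from the open subset `S ∩ U` of `S` to the open subset
`𝕋^k × Σ_M ∩ V` of `𝕋^k × Σ_M`. -/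
structure Homeo : Prop where
  openU : IsOpen C.U
  openV : IsOpen C.V
  contf : ContinuousOn C.f (S ∩ C.U)
  contg : ContinuousOn C.g C.Im
  mapf : ∀ b ∈ S ∩ C.U, C.f b ∈ C.Im
  mapg : ∀ v ∈ C.Im, C.g v ∈ S ∩ C.U
  gf : ∀ b ∈ S ∩ C.U, C.g (C.f b) = b
  fg : ∀ v ∈ C.Im, C.f (C.g v) = v

/-- The coordinates `log x_i` (where `x_i ≠ 0`) and `y_e` are integral affine functions on `S`. -/
def AffC : Prop := ∀ b ∈ S ∩ C.U,
  (∀ i, (C.f b).1 i ≠ 0 → AffGerm S b fun b' => Real.log ((C.f b').1 i)) ∧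
    ∀ e, AffGerm S b fun b' => (C.f b').2 e

/-- The integral affine functions `log |χ^m|` on `S` are near each point `b` integral affine
functions of the coordinates `y_e` and `log x_i` (`i` with `x_i(b) ≠ 0`). -/
def GenC : Prop := ∀ b ∈ S ∩ C.U, ∀ m ∈ perpM b.cone.1,
  ∃ (a : Fin C.k → ℤ) (c : Fin (C.r + 1) → ℤ) (d : ℝ), (∀ i, (C.f b).1 i = 0 → a i = 0) ∧
    ∀ᶠ b' in 𝓝[S] b,
      lgT m b' = d + ∑ i, a i * Real.log ((C.f b').1 i) + ∑ e, c e * (C.f b').2 e

/-- `f` is an integral affine isomorphism of `S ∩ U` and an open subset of `𝕋^k × Σ_M`. -/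
structure Ok : Prop where
  ground : C.M.E = Set.univ
  loopless : ∀ e, C.M.Indep {e}
  homeo : C.Homeo S
  aff : C.AffC S
  gen : C.GenC S

end TChart

/-- `b' = b + x`, `x ∈ N_ℝ`. -/
def IsTr (b b' : TropPt F) (x : Fin n → ℝ) : Prop :=
  b'.cone = b.cone ∧ ∀ m, TropPt.absv m b' = TropPt.absv m b * Real.exp (pair m x)

/-- `b` is a regular point of `S`: `S = b + Λ` near `b`, `Λ` a linear subspace. -/
def IsReg (S : Set (TropPt F)) (b : TropPt F) : Prop :=
  ∃ Λ : Submodule ℝ (Fin n → ℝ), ∀ᶠ b' in 𝓝 b, b' ∈ S ↔ ∃ x ∈ Λ, IsTr b b' x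

/-- `χ^m` is finite at `b` and constant on `S` near `b`. -/
def IsCon (S : Set (TropPt F)) (b : TropPt F) (m : Fin n → ℤ) : Prop :=
  m ∈ perpM b.cone.1 ∧ ∀ᶠ b' in 𝓝[S] b, lgT m b' = lgT m b

end Model

namespace Toric

variable {K : Type} [NormedField K] {X Y : Scheme.{0}} {n : ℕ} {F : Fan n} {ι : Str K Y}
  (T : Toric F Y ι) (φ : X ⟶ Y)

/-- Linear combinations of characters on `U_σ`. -/
noncomputable def linY {σ : F.cones} {j : ℕ} (m : Fin j → Sg σ.1) (a : Fin j → K) :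
    Fn Y (T.U σ) := ∑ i, stK ι (T.U σ) (a i) * T.chi σ (m i)

/-- Linear combinations of characters on `φ⁻¹(U_σ)`. -/
noncomputable def linX {σ : F.cones} {j : ℕ} (m : Fin j → Sg σ.1) (a : Fin j → K) :
    Fn X (opX φ (T.U σ)) := fnX φ (T.linY m a)

/-- The characters `m_i` are orthogonal on `X` for the weight `b`:
`max |a_i| |χ^{m_i}|(b) ≤ max |a'_i| |χ^{m'_i}|(b)` if `∑ a_i χ^{m_i} = ∑ a'_i χ^{m'_i}` on `X`. -/
def Orth (b : TropPt F) {j : ℕ} (m : Fin j → Sg b.cone.1) : Prop :=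
  ∀ (a : Fin j → K) (l : ℕ) (m' : Fin l → Sg b.cone.1) (a' : Fin l → K),
    T.linX φ m a = T.linX φ m' a' → ∀ r : ℝ, 0 ≤ r →
      (∀ i, ‖a' i‖ * TropPt.absv (m' i).m b ≤ r) → ∀ i, ‖a i‖ * TropPt.absv (m i).m b ≤ r

/-- The weight of `Trop(X)` at the regular point `b` is `k`: `k` is the largest number of orthogonal
characters which are constant on `Trop(X)` near `b`, that is the length of `in_b(X) / T_Λ` if
`Trop(X) = b + Λ` near `b`. -/
def IsWeight (b : TropPt F) (k : ℕ) : Prop :=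
  IsGreatest {j : ℕ | ∃ m : Fin j → Sg b.cone.1, Function.Injective m ∧
    (∀ i, IsCon (T.TropX φ) b (m i).m) ∧ T.Orth φ b m} k

/-- `Trop(X)` is smooth. -/
structure SmoothX : Prop where
  chart : ∀ w ∈ T.TropX φ, ∃ C : TChart F, w ∈ C.U ∧ C.Ok (T.TropX φ)
  weight : ∀ b ∈ T.TropX φ, IsReg (T.TropX φ) b → T.IsWeight φ b 1

end Toric

end Pool.Agent.TD
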