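import Pool.Agent.TD.X.Map

/-!
# Section X: `X^an → Y^an` for a morphism of schemes; closed immersions give closed embeddings
-/

open scoped ContDiff Topology
open AlgebraicGeometry CategoryTheory

namespace Pool.Agent.TD

namespace An

variable {K : Type} [NormedField K] {X Y : Scheme.{0}} {φ : X ⟶ Y} {ι : Str K Y}

theorem germ_stX (U : Op Y) (x : Pt X) (h : ptX φ x ∈ U) (f : Fn Y U) :
    stX φ x (gm U (ptX φ x) h f) = gm (opX φ U) x h (fnX φ f) := by
  have e := congrArg (fun g => g f) (congrArg CommRingCat.Hom.hom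
    (Scheme.Hom.germ_stalkMap φ U x h))
  exact e

theorem map_pt (z : An X (Str.pb φ ι)) : (map φ ι z).pt = ptX φ z.pt := rfl

theorem map_v (z : An X (Str.pb φ ι)) (a : Lr Y (ptX φ z.pt)) :
    (map φ ι z).v a = z.v (stX φ z.pt a) := rfl

theorem absv_map (U : Op Y) (f : Fn Y U) (z : An X (Str.pb φ ι)) :
    absv U f (map φ ι z) = absv (opX φ U) (fnX φ f) z := by
  by_cases h : ptX φ z.pt ∈ U
  · have h' : z.pt ∈ opX φ U := h
    rw [absv_of_mem f (z := map φ ι z) h, absv_of_mem (fnX φ f) h']
    show z.v (stX φ z.pt (gm U (ptX φ z.pt) h f)) = _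
    rw [germ_stX]
  · have h' : z.pt ∉ opX φ U := h
    unfold absv
    rw [dif_neg h', dif_neg (show (map φ ι z).pt ∉ U from h)]

theorem continuous_map : Continuous (map φ ι) := by
  rw [continuous_generateFrom_iff]
  rintro _ ⟨U, f, V, hV, rfl⟩
  have e : map φ ι ⁻¹' {z : An Y ι | z.pt ∈ U ∧ absv U f z ∈ V} =
      {z : An X (Str.pb φ ι) | z.pt ∈ opX φ U ∧ absv (opX φ U) (fnX φ f) z ∈ V} := by
    ext z
    simp only [Set.mem_preimage, Set.mem_setOf_eq, absv_map]
    exact Iff.rfl
  rw [e]
  exact isOpen_basic _ _ hV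

/-- Points of `X^an` are equal if all absolute values are equal. -/
theorem ext_all {κ : Str K X} {z z' : An X κ} (h1 : ∀ U : Op X, z.pt ∈ U ↔ z'.pt ∈ U)
    (h2 : ∀ (U : Op X) (f : Fn X U), absv U f z = absv U f z') : z = z' := by
  obtain ⟨x, v, k1, k2, k3, k4, k5, k6⟩ := z
  obtain ⟨x', v', k1', k2', k3', k4', k5', k6'⟩ := z'
  have hx : x = x' := by
    have : Inseparable x x' := by
      rw [inseparable_iff_forall_isOpen]
      intro s hs
      exact h1 ⟨s, hs⟩
    exact this.eq
  subst hx
  have hv : v = v' := by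
    funext a
    obtain ⟨U, hU, f, rfl⟩ := X.presheaf.exists_germ_eq a
    have := h2 U f
    rw [absv_of_mem f (z := ⟨x, v, k1, k2, k3, k4, k5, k6⟩) hU,
      absv_of_mem f (z := ⟨x, v', k1', k2', k3', k4', k5', k6'⟩) hU] at this
    exact this
  subst hv
  rfl

section Closed

variable [IsClosedImmersion φ]

theorem ptX_injective : Function.Injective (ptX φ) :=
  (IsClosedImmersion.isClosedEmbedding φ).injective

/-- Functions on open subsets of `X` come locally from `Y`. -/
theorem exists_lift (V : Op X) (f : Fn X V) {x : Pt X} (hx : x ∈ V) :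
    ∃ (W : Op Y) (g : Fn Y W), ptX φ x ∈ W ∧ IsAffineOpen W ∧ opX φ W ≤ V ∧
      ∀ z : An X (Str.pb φ ι), z.pt ∈ opX φ W → absv V f z = absv W g (map φ ι z) := by
  obtain ⟨W', hW', hW'e⟩ := (IsClosedImmersion.isClosedEmbedding φ).isInducing.isOpen_iff.1 V.2
  have hxW' : ptX φ x ∈ W' := by
    have : x ∈ (φ : Pt X → Pt Y) ⁻¹' W' := by
      rw [hW'e]
      exact hx
    exact this
  obtain ⟨_, ⟨W, hWa, rfl⟩, hxW, hWW'⟩ := Y.isBasis_affineOpens.exists_subset_of_mem_open hxW' hW'
  have hle : opX φ W ≤ V := by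
    intro y hy
    have : y ∈ (φ : Pt X → Pt Y) ⁻¹' W' := hWW' hy
    rw [hW'e] at this
    exact this
  obtain ⟨g, hg⟩ := φ.app_surjective W hWa (resF hle f)
  refine ⟨W, g, hxW, hWa, hle, fun z hz => ?_⟩
  rw [absv_map]
  have e : fnX φ g = resF hle f := hg
  rw [e]
  exact (absv_res hle f hz).symm

theorem map_injective : Function.Injective (map φ ι) := by
  intro z z' h
  have hpt : z.pt = z'.pt := ptX_injective (φ := φ) (congrArg An.pt h)
  refine ext_all (fun U => by rw [hpt]) fun U f => ?_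
  by_cases hU : z.pt ∈ U
  · obtain ⟨W, g, h1, -, h2, h3⟩ := exists_lift (ι := ι) (φ := φ) U f hU
    have h1' : z'.pt ∈ opX φ W := by
      rw [← hpt]
      exact h1
    rw [h3 z h1, h3 z' h1', h]
  · have hU' : z'.pt ∉ U := by rwa [← hpt]
    unfold absv
    rw [dif_neg hU, dif_neg hU']

theorem isInducing_map : Topology.IsInducing (map φ ι) := by
  constructor
  refine le_antisymm (continuous_iff_le_induced.1 continuous_map) ?_
  refine le_generateFrom ?_
  rintro _ ⟨U, f, V, hV, rfl⟩
  letI : TopologicalSpace (An X (Str.pb φ ι)) :=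
    TopologicalSpace.induced (map φ ι) inferInstance
  show IsOpen {z : An X (Str.pb φ ι) | z.pt ∈ U ∧ absv U f z ∈ V}
  rw [isOpen_iff_mem_nhds]
  rintro z ⟨hz, hzV⟩
  obtain ⟨W, g, h1, -, h2, h3⟩ := exists_lift (ι := ι) (φ := φ) U f hz
  have hO : IsOpen {y : An Y ι | y.pt ∈ W ∧ absv W g y ∈ V} := isOpen_basic W g hV
  have hO' : IsOpen (map φ ι ⁻¹' {y : An Y ι | y.pt ∈ W ∧ absv W g y ∈ V}) :=
    isOpen_induced hO
  refine Filter.mem_of_superset (hO'.mem_nhds ⟨h1, ?_⟩) ?_
  · rw [← h3 z h1]
    exact hzV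
  · rintro z' ⟨k1, k2⟩
    refine ⟨h2 k1, ?_⟩
    show absv U f z' ∈ V
    rw [h3 z' k1]
    exact k2

/-- The points of `Y^an` above points of `X` come from `X^an`. -/
theorem range_map : Set.range (map φ ι) = {y | y.pt ∈ Set.range (ptX φ)} := by
  ext y
  constructor
  · rintro ⟨z, rfl⟩
    exact ⟨z.pt, rfl⟩
  · obtain ⟨x0, v, k1, k2, k3, k4, k5, k6⟩ := y
    rintro ⟨x, hx⟩
    change ptX φ x = x0 at hx
    subst hx
    have hsurj : Function.Surjective (stX φ x) := φ.stalkMap_surjective x
    have hv : ∀ a b, stX φ x a = stX φ x b → v a = v b := by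
      have key : ∀ a b, stX φ x a = stX φ x b → v a ≤ v b := by
        intro a b hab
        have h0 : v (a - b) = 0 := by
          rw [k6]
          intro hu
          have h1 := hu.map (stX φ x)
          rw [map_sub, hab, sub_self] at h1
          exact not_isUnit_zero h1
        have h1 := k4 (a - b) b
        rw [sub_add_cancel, h0] at h1
        exact h1.trans (max_le (k1 b) le_rfl)
      intro a b hab
      exact le_antisymm (key a b hab) (key b a hab.symm)
    choose s hs using hsurj
    have hvs : ∀ a, v (s (stX φ x a)) = v a := fun a => hv _ _ (hs _)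
    refine ⟨⟨x, fun a => v (s a), fun a => k1 _, ?_, ?_, ?_, ?_, ?_⟩, ?_⟩
    · rw [← k2]
      exact hv _ _ (by rw [hs, map_one])
    · intro a b
      rw [← k3]
      exact hv _ _ (by rw [hs, map_mul, hs, hs])
    · intro a b
      rw [hv (s (a + b)) (s a + s b) (by rw [hs, map_add, hs, hs])]
      exact k4 _ _
    · intro c
      rw [← k5 c]
      refine hv _ _ ?_
      rw [hs, germ_stX]
      rfl
    · intro a
      rw [k6]
      refine not_congr ?_
      constructor
      · intro h
        have := h.map (stX φ x)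
        rwa [hs] at this
      · intro h
        rw [← hs a] at h
        exact (isUnit_map_iff (φ.stalkMap x).hom _).1 h
    · unfold map
      congr 1
      funext a
      exact hvs a

theorem isClosedEmbedding_map : Topology.IsClosedEmbedding (map φ ι) := by
  refine ⟨⟨isInducing_map, map_injective⟩, ?_⟩
  rw [range_map, ← isOpen_compl_iff]
  have hc : IsClosed (Set.range (ptX φ)) := (IsClosedImmersion.isClosedEmbedding φ).isClosed_range
  exact isOpen_opn (ι := ι) (⟨(Set.range (ptX φ))ᶜ, hc.isOpen_compl⟩ : Op Y)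

end Closed

end An

end Pool.Agent.TD
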