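import Pool.Agent.TD.Y.Coh
import Pool.Agent.TD.H.Cx

/-!
# Block X.d: assembly

A proper morphism of spaces with log functions which is a quasi-isomorphism along every fibre
induces isomorphisms on Dolbeault cohomology, with and without supports (abstract form of
`Y/Final.lean`).
-/

open scoped ContDiff Topology

namespace Pool.Agent.TD

namespace LogSpace

variable {X Φ : Type} [TopologicalSpace X] (L : LogSpace X Φ)

/-- A form has compact support iff its support is compact. -/
theorem mem_Gc_iff {p q : ℕ} (c : L.G p q) : c ∈ L.Gc p q ↔ IsCompact (L.supp c) := by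
  constructor
  · rintro ⟨K, hK, h⟩
    refine hK.of_isClosed_subset (L.isClosed_supp c) fun z hz => ?_
    by_contra hz'
    exact hz (h z hz')
  · intro h
    refine ⟨_, h, fun z hz => ?_⟩
    by_contra h'
    exact hz h'

end LogSpace

namespace Mor

variable {X Φ X' Φ' : Type} [TopologicalSpace X] [TopologicalSpace X'] {L : LogSpace X Φ}
  {L' : LogSpace X' Φ'}

/-- `m` is a quasi-isomorphism along the fibre over `b`: closed forms of positive degree near the
fibre are exact near the fibre, closed forms of type `(p,0)` near the fibre come from closed germs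
at `b`, and closed germs at `b` are determined by their pull backs. -/
structure FibIso (m : Mor L L') (b : X') : Prop where
  exact' : ∀ (p q : ℕ) (c : L.G p (q + 1)),
    (∀ z, m.toFun z = b → L.ddS p (q + 1) z (c.1 z) = 0) →
      ∃ e : L.G p q, ∀ z, m.toFun z = b → L.ddS p q z (e.1 z) = c.1 z
  zero' : ∀ (p : ℕ) (c : L.G p 0), (∀ z, m.toFun z = b → L.ddS p 0 z (c.1 z) = 0) →
    ∃ a : L'.G p 0, L'.ddS p 0 b (a.1 b) = 0 ∧
      ∀ z, m.toFun z = b → c.1 z = (m.pullG p 0 a).1 z
  inj' : ∀ (p : ℕ) (a : L'.G p 0), L'.ddS p 0 b (a.1 b) = 0 →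
    (∀ z, m.toFun z = b → (m.pullG p 0 a).1 z = 0) → a.1 b = 0

variable {m : Mor L L'}

theorem supp_pullG {p q : ℕ} (c : L'.G p q) {z : X}
    (h : z ∈ L.supp (m.pullG p q c)) : m.toFun z ∈ L'.supp c := by
  intro h0
  apply h
  rw [Mor.pullG_val]
  have h1 : c.1 (m.toFun z) = 0 := h0
  rw [h1, map_zero]

theorem IsProp.properOn [LocallyCompactSpace X'] [T2Space X'] (hm : m.IsProp) :
    ProperOn Set.univ m.toFun := by
  refine properOn_of_comp m.cont isClosed_univ fun Z hZ => ?_
  rw [Set.univ_inter]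
  exact hm Z hZ

section inst

variable [T2Space X] [LocallyCompactSpace X] [T2Space X'] [LocallyCompactSpace X']
  (hC : L.CutOff) (hC' : L'.CutOff) (hm : m.IsProp)

/-- The complex of forms on `X`, pushed forward to `X'`. -/
noncomputable def cxP (p : ℕ) : SCx X' := (L.cx hC p).push hm.properOn

/-- The class of a form. -/
noncomputable def clsP (p q : ℕ) : L.G p q →+ (cxP hC hm p).G q :=
  (L.cx hC p).cls Set.univ q

theorem clsP_surj (p q : ℕ) : Function.Surjective (clsP hC hm p q) :=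
  (L.cx hC p).cls_surjective q

theorem clsP_eq_zero {p q : ℕ} {c : L.G p q} : clsP hC hm p q c = 0 ↔ c = 0 := by
  have h1 := (L.cx hC p).cls_eq_zero (S := Set.univ) (q := q) (c := c)
  refine Iff.trans h1 ?_
  constructor
  · intro h
    apply Subtype.ext
    funext z
    exact (L.disjoint_supp_iff p c Set.univ).1 h z trivial
  · rintro rfl
    exact (L.disjoint_supp_iff p 0 Set.univ).2 fun z _ => rfl

theorem clsP_inj {p q : ℕ} {c c' : L.G p q} (h : clsP hC hm p q c = clsP hC hm p q c') :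
    c = c' := by
  rw [← sub_eq_zero] at h ⊢
  rw [← map_sub] at h
  exact (clsP_eq_zero hC hm).1 h

theorem clsP_d (p q : ℕ) (c : L.G p q) :
    (cxP hC hm p).d q (clsP hC hm p q c) = clsP hC hm p (q + 1) (L.ddG p q c) := rfl

theorem supp_clsP {p q : ℕ} (c : L.G p q) :
    (cxP hC hm p).supp (clsP hC hm p q c) = m.toFun '' (L.supp c) := by
  have h := (L.cx hC p).push_supp hm.properOn c
  rw [Set.inter_univ] at h
  exact h

/-- The morphism of complexes with supports. -/
noncomputable def shom (p : ℕ) : SHom (L'.cx hC' p) (cxP hC hm p) where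
  f q := (clsP hC hm p q).comp (m.pullG p q).toAddMonoidHom
  comm q c := congrArg (clsP hC hm p (q + 1)) (m.pullG_dd p q c)
  supp q c := by
    have h := supp_clsP hC hm (m.pullG p q c)
    refine h.trans_subset ?_
    rintro _ ⟨z, hz, rfl⟩
    exact supp_pullG c hz

theorem shom_f (p q : ℕ) (c : L'.G p q) :
    (shom hC hC' hm p).f q c = clsP hC hm p q (m.pullG p q c) := rfl

theorem cxP_complete (p : ℕ) : (cxP hC hm p).Complete :=
  SCx.push_complete _ hm.properOn (L.cx_complete hC p)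

theorem qiso {b : X'} (hst : L'.StarAt b) (hF : m.FibIso b) (p : ℕ) :
    (shom hC hC' hm p).QIso {b} := by
  have key : ∀ (P : X → Prop),
      (∀ z ∈ (Set.univ : Set X) ∩ m.toFun ⁻¹' {b}, P z) ↔ ∀ z, m.toFun z = b → P z := by
    intro P
    constructor
    · intro h z hz
      exact h z ⟨trivial, hz⟩
    · rintro h z ⟨-, hz⟩
      exact h z hz
  refine ⟨?_, ?_⟩
  · intro q c hc hb
    rcases q with _ | q
    · have h1 : (L.cx hC p).Bd (Set.univ ∩ m.toFun ⁻¹' {b}) 0 (m.pullG p 0 c) :=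
        ((L.cx hC p).push_Bd hm.properOn {b} (m.pullG p 0 c)).1 hb
      rw [L.cx_Bd_zero_iff hC, key] at h1
      have h2 := (L'.cx_Cl_iff hC' p {b} 0 c).1 hc b rfl
      rw [L'.cx_Bd_zero_iff hC']
      intro z hz
      rw [Set.mem_singleton_iff.1 hz]
      exact hF.inj' p c h2 h1
    · exact L'.cx_Bd_of_star hC' p hst q c hc
  · intro q e he
    obtain ⟨c, rfl⟩ := clsP_surj hC hm p q e
    have h1 : (L.cx hC p).Cl (Set.univ ∩ m.toFun ⁻¹' {b}) q c :=
      ((L.cx hC p).push_Cl hm.properOn {b} c).1 he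
    rw [L.cx_Cl_iff hC, key] at h1
    rcases q with _ | q
    · obtain ⟨a, ha, hac⟩ := hF.zero' p c h1
      refine ⟨a, ?_, ?_⟩
      · exact (L'.cx_Cl_iff hC' p {b} 0 a).2 (by rintro _ rfl; exact ha)
      · have h2 : (L.cx hC p).Bd (Set.univ ∩ m.toFun ⁻¹' {b}) 0 (c - m.pullG p 0 a) := by
          rw [L.cx_Bd_zero_iff hC, key]
          intro z hz
          have h3 := hac z hz
          show c.1 z - (m.pullG p 0 a).1 z = 0
          rw [h3, sub_self]
        have h3 := ((L.cx hC p).push_Bd hm.properOn {b} (c - m.pullG p 0 a)).2 h2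
        have h4 : clsP hC hm p 0 (c - m.pullG p 0 a) =
            clsP hC hm p 0 c - (shom hC hC' hm p).f 0 a := map_sub (clsP hC hm p 0) _ _
        rw [← h4]
        exact h3
    · obtain ⟨e, he'⟩ := hF.exact' p q c h1
      refine ⟨(0 : L'.G p (q + 1)), ?_, ?_⟩
      · refine (L'.cx_Cl_iff hC' p {b} (q + 1) 0).2 ?_
        rintro z -
        exact map_zero _
      · have h2 : (L.cx hC p).Bd (Set.univ ∩ m.toFun ⁻¹' {b}) (q + 1) c := by
          rw [L.cx_Bd_succ_iff hC]
          exact ⟨e, (key _).2 fun z hz => (he' z hz).symm⟩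
        have h3 := ((L.cx hC p).push_Bd hm.properOn {b} c).2 h2
        have h4 : clsP hC hm p (q + 1) c - (shom hC hC' hm p).f (q + 1) (0 : L'.G p (q + 1)) =
            clsP hC hm p (q + 1) c := by
          rw [shom_f, map_zero, map_zero, sub_zero]
        rw [h4]
        exact h3

theorem bdG_iff {p q : ℕ} (c : L.G p q) :
    (cxP hC hm p).BdG q (clsP hC hm p q c) ↔ c ∈ L.Bf p q := by
  rcases q with _ | q
  · exact clsP_eq_zero hC hm
  · constructor
    · rintro ⟨e, he⟩
      obtain ⟨e, rfl⟩ := clsP_surj hC hm p q e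
      rw [clsP_d] at he
      exact ⟨e, (clsP_inj hC hm he).symm⟩
    · rintro ⟨e, rfl⟩
      exact ⟨clsP hC hm p q e, rfl⟩

theorem gcP_iff {p q : ℕ} (c : L.G p q) : c ∈ L.Gc p q ↔
    IsCompact ((cxP hC hm p).supp (clsP hC hm p q c)) := by
  rw [supp_clsP, L.mem_Gc_iff]
  constructor
  · intro h
    exact h.image m.cont
  · intro h
    exact (hm _ h).of_isClosed_subset (L.isClosed_supp c) fun z hz => ⟨z, hz, rfl⟩

theorem bdC_iff {p q : ℕ} (c : L.G p q) :
    (cxP hC hm p).BdC q (clsP hC hm p q c) ↔ c ∈ L.Bc p q := by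
  rcases q with _ | q
  · exact clsP_eq_zero hC hm
  · constructor
    · rintro ⟨e, he1, he⟩
      obtain ⟨e, rfl⟩ := clsP_surj hC hm p q e
      rw [clsP_d] at he
      exact ⟨e, (gcP_iff hC hm e).2 he1, (clsP_inj hC hm he).symm⟩
    · rintro ⟨e, he1, rfl⟩
      exact ⟨clsP hC hm p q e, (gcP_iff hC hm e).1 he1, rfl⟩

include hC hC' hm

/-- The assembly, in terms of forms. -/
theorem asm_forms (E : CompactExhaustion X') (hst : ∀ b, L'.StarAt b) (hF : ∀ b, m.FibIso b)
    (p q : ℕ) :
    ((∀ c ∈ L.Zf p q, ∃ a ∈ L'.Zf p q, c - m.pullG p q a ∈ L.Bf p q) ∧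
    (∀ a ∈ L'.Zf p q, m.pullG p q a ∈ L.Bf p q → a ∈ L'.Bf p q)) ∧
    (∀ c ∈ L.Zc p q, ∃ a ∈ L'.Zc p q, c - m.pullG p q a ∈ L.Bc p q) ∧
    (∀ a ∈ L'.Zc p q, m.pullG p q a ∈ L.Bc p q → a ∈ L'.Bc p q) := by
  have hG := (shom hC hC' hm p).qiso_global (L'.cx_complete hC' p) (cxP_complete hC hm p) E
    fun b => qiso hC hC' hm (hst b) (hF b) p
  have hK := (shom hC hC' hm p).qiso_compact (L'.cx_complete hC' p) (cxP_complete hC hm p) E
    fun b => qiso hC hC' hm (hst b) (hF b) p
  refine ⟨⟨?_, ?_⟩, ?_, ?_⟩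
  · intro c hc
    have hc' : L.ddG p q c = 0 := hc
    obtain ⟨a, ha, hb⟩ := hG.2 q (clsP hC hm p q c) (by rw [clsP_d, hc', map_zero])
    refine ⟨a, ha, ?_⟩
    rw [shom_f, ← map_sub, bdG_iff] at hb
    exact hb
  · intro a ha hb
    have h1 := hG.1 q a ha (by rw [shom_f]; exact (bdG_iff hC hm _).2 hb)
    rcases q with _ | q
    · exact h1
    · obtain ⟨e, he⟩ := h1
      exact ⟨e, he.symm⟩
  · intro c hc
    have hc' : L.ddG p q c = 0 := hc.1
    obtain ⟨a, ha1, ha, hb⟩ := hK.2 q (clsP hC hm p q c) ((gcP_iff hC hm c).1 hc.2)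
      (by rw [clsP_d, hc', map_zero])
    refine ⟨a, ⟨ha, (L'.mem_Gc_iff a).2 ha1⟩, ?_⟩
    rw [shom_f, ← map_sub, bdC_iff] at hb
    exact hb
  · intro a ha hb
    have h1 := hK.1 q a ((L'.mem_Gc_iff a).1 ha.2) ha.1
      (by rw [shom_f]; exact (bdC_iff hC hm _).2 hb)
    rcases q with _ | q
    · exact h1
    · obtain ⟨e, he1, he⟩ := h1
      exact ⟨e, (L'.mem_Gc_iff e).2 he1, he.symm⟩

/-- The assembly: a proper morphism which is a quasi-isomorphism along every fibre induces
isomorphisms on Dolbeault cohomology, with and without supports. -/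
theorem asm (E : CompactExhaustion X') (hst : ∀ b, L'.StarAt b) (hF : ∀ b, m.FibIso b)
    (p q : ℕ) :
    Function.Bijective (m.mapH p q) ∧ Function.Bijective (Mor.mapHc hm p q) := by
  obtain ⟨⟨h1, h2⟩, h3, h4⟩ := asm_forms hC hC' hm E hst hF p q
  exact ⟨Mor.mapH_bijective _ h1 h2, Mor.mapHc_bijective hm h3 h4⟩

end inst

end Mor

end Pool.Agent.TD
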