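import Pool.Agent.TD.X.Asm
import Pool.Agent.TD.S.Bridge

/-! # Block X.d: assembly, in the terms of the statement layer -/

open scoped ContDiff Topology

namespace Pool.Agent.TD

variable {X Φ X' Φ' : Type} [TopologicalSpace X] [TopologicalSpace X'] {L : LogSpace X Φ}
  {L' : LogSpace X' Φ'} {m : Mor L L'}

/-- The assembly in terms of the statement layer. -/
theorem asm_iso [T2Space X] [LocallyCompactSpace X] [T2Space X'] [LocallyCompactSpace X']
    (hC : L.CutOff) (hC' : L'.CutOff) (hm : m.IsProp) (E : CompactExhaustion X')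
    (hst : ∀ b, L'.StarAt b) (hF : ∀ b, m.FibIso b) (p q : ℕ)
    {pb : (X' → Raw Φ' p q) → X → Raw Φ p q} (h : Reps m pb) :
    IsoH L' L pb ∧ IsoHc L' L pb := by
  obtain ⟨⟨h1, h2⟩, h3, h4⟩ := Mor.asm_forms hC hC' hm E hst hF p q
  exact ⟨isoH_of h h1 h2, isoHc_of h hm h3 h4⟩

end Pool.Agent.TD
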