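import Pool.Agent.TD.X.Top

/-!
# Section X: the rings of the charts `φ⁻¹(U_σ)`
-/

open scoped ContDiff Topology
open AlgebraicGeometry CategoryTheory

namespace Pool.Agent.TD

namespace Toric

variable {K : Type} [NormedField K] {X Y : Scheme.{0}} {n : ℕ} {F : Fan n} {ι : Str K Y}
  (T : Toric F Y ι) (φ : X ⟶ Y)

/-- The open subset `φ⁻¹(U_σ)`. -/
noncomputable abbrev UX (σ : F.cones) : X.Opens := opX φ (T.U σ)

/-- The character `χ^m` on `φ⁻¹(U_σ)`. -/
noncomputable def chX (σ : F.cones) (m : dualM σ.1) : Γ(X, T.UX φ σ) := fnX φ (T.chi σ m)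

theorem chX_zero (σ : F.cones) : T.chX φ σ 0 = 1 := by
  show fnH φ (T.U σ) (T.chi σ 0) = 1
  rw [T.chi_zero, map_one]

theorem chX_add (σ : F.cones) (m m' : dualM σ.1) :
    T.chX φ σ (m + m') = T.chX φ σ m * T.chX φ σ m' := by
  show fnH φ (T.U σ) (T.chi σ (m + m')) = _
  rw [T.chi_add, map_mul]
  rfl

theorem UX_mono {σ τ : F.cones} (h : τ.1 ⊆ σ.1) : T.UX φ τ ≤ T.UX φ σ :=
  fun _ hx => T.U_mono h hx

theorem chX_res {σ τ : F.cones} (h : τ.1 ⊆ σ.1) (m : dualM σ.1) (m' : dualM τ.1)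
    (e : m'.1 = m.1) :
    X.presheaf.map (homOfLE (T.UX_mono φ h)).op (T.chX φ σ m) = T.chX φ τ m' := by
  have h1 := T.chi_res σ τ (T.U_mono h) m m' h e
  have h2 := congrArg (fun f => f (T.chi σ m)) (congrArg CommRingCat.Hom.hom
    (φ.naturality (homOfLE (T.U_mono h)).op))
  show X.presheaf.map (homOfLE (T.UX_mono φ h)).op (φ.app (T.U σ) (T.chi σ m)) =
    φ.app (T.U τ) (T.chi τ m')
  rw [← h1]
  exact h2.symm

theorem fnX_stK (U : Y.Opens) (c : K) : fnX φ (stK ι U c) = stK (Str.pb φ ι) (opX φ U) c := by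
  have h2 := congrArg (fun f => f (ι c)) (congrArg CommRingCat.Hom.hom
    (φ.naturality (homOfLE (le_top : U ≤ ⊤)).op))
  exact h2

theorem mem_UX_iff {σ : F.cones} {z : An X (Str.pb φ ι)} :
    z.pt ∈ T.UX φ σ ↔ T.tropX φ z ∈ TropPt.opn σ := T.mem_U_iff

theorem tropX_cone (z : An X (Str.pb φ ι)) : (T.tropX φ z).cone = T.minCone (ptX φ z.pt) := rfl

/-- Compatibility of the tropicalization map with the characters. -/
theorem absv_tropX {z : An X (Str.pb φ ι)} {σ : F.cones} (hσ : z.pt ∈ T.UX φ σ) (m : dualM σ.1) :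
    TropPt.absv m.1 (T.tropX φ z) = An.absv (T.UX φ σ) (T.chX φ σ m) z := by
  have h := T.absv_trop (z := An.map φ ι z) hσ m
  rw [An.absv_map] at h
  exact h

theorem isUnit_chX (σ : F.cones) {m : dualM σ.1} (hm : m.1 ∈ perpM σ.1) :
    IsUnit (T.chX φ σ m) := by
  have hm' : -m.1 ∈ dualM σ.1 := TropPt.perp_dual ((perpM σ.1).neg_mem hm)
  refine IsUnit.of_mul_eq_one (T.chX φ σ ⟨-m.1, hm'⟩) ?_
  rw [← T.chX_add, ← T.chX_zero φ σ]
  congr 1
  apply Subtype.ext
  show m.1 + -m.1 = 0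
  exact add_neg_cancel _

section closed

variable [IsClosedImmersion φ]

theorem affine_UX (σ : F.cones) : IsAffineOpen (T.UX φ σ) := (T.affine σ).preimage φ

theorem exists_sum (σ : F.cones) (f : Γ(X, T.UX φ σ)) : ∃ a : dualM σ.1 →₀ K,
    (a.sum fun m c => stK (Str.pb φ ι) (T.UX φ σ) c * T.chX φ σ m) = f := by
  obtain ⟨g, rfl⟩ := φ.app_surjective (T.U σ) (T.affine σ) f
  obtain ⟨a, rfl⟩ := (T.basis σ).2 g
  refine ⟨a, ?_⟩
  show _ = fnH φ (T.U σ) (a.sum fun m c => stK ι (T.U σ) c * T.chi σ m)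
  rw [map_finsuppSum]
  refine Finset.sum_congr rfl fun m _ => ?_
  show _ = fnH φ (T.U σ) (stK ι (T.U σ) (a m) * T.chi σ m)
  rw [map_mul]
  show _ = fnX φ (stK ι (T.U σ) (a m)) * T.chX φ σ m
  rw [fnX_stK]

theorem finiteTypeX (σ : F.cones) : (stK (Str.pb φ ι) (T.UX φ σ)).FiniteType := by
  have h1 : (stK ι (T.U σ)).FiniteType := by
    letI : Algebra K Γ(Y, T.U σ) := (stK ι (T.U σ)).toAlgebra
    have : Algebra.FiniteType K (AddMonoidAlgebra K (dualM σ.1)) := finiteType σ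
    let e : AddMonoidAlgebra K (dualM σ.1) →ₐ[K] Γ(Y, T.U σ) :=
      { (T.ringIso σ).toRingHom with
        commutes' := by
          intro c
          show T.evHom σ (algebraMap K _ c) = _
          have e : algebraMap K (AddMonoidAlgebra K (dualM σ.1)) c = AddMonoidAlgebra.single 0 c :=
            rfl
          rw [e, evHom_single, T.chi_zero, mul_one]
          rfl }
    exact Algebra.FiniteType.of_surjective e (T.ringIso σ).surjective
  have h2 : (fnH φ (T.U σ)).FiniteType :=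
    RingHom.FiniteType.of_surjective _ (φ.app_surjective (T.U σ) (T.affine σ))
  have h3 := h2.comp h1
  convert h3 using 1
  ext c
  exact (fnX_stK φ (T.U σ) c).symm

end closed

section generic

variable [IsIntegral X]

/-- The cone of the generic point of `X`. -/
noncomputable def tau : F.cones := T.minCone (ptX φ (genericPoint X))

theorem gen_mem (U : X.Opens) (h : (U : Set X).Nonempty) : genericPoint X ∈ U :=
  (genericPoint_spec X).mem_open_set_iff U.2 |>.2 (by simpa using h)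

theorem tau_le (z : An X (Str.pb φ ι)) : (T.tau φ).1 ⊆ (T.tropX φ z).cone.1 := by
  refine T.minCone_le ?_
  have h : z.pt ∈ T.UX φ (T.tropX φ z).cone := (T.mem_UX_iff φ).2 (Set.Subset.refl _)
  exact gen_mem (T.UX φ (T.tropX φ z).cone) ⟨z.pt, h⟩

theorem tau_le' {b : TropPt F} (hb : b ∈ T.TropX φ) : (T.tau φ).1 ⊆ b.cone.1 := by
  obtain ⟨z, rfl⟩ := hb
  exact T.tau_le φ z

/-- `χ^m` is not zero on `X` if and only if `m` vanishes on the cone of the generic point. -/
theorem chX_ne_zero_iff {σ : F.cones} (h : (T.tau φ).1 ⊆ σ.1) (m : dualM σ.1) :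
    T.chX φ σ m ≠ 0 ↔ m.1 ∈ perpM (T.tau φ).1 := by
  have hη : genericPoint X ∈ T.UX φ σ := T.mem_U_iff.2 h
  have h1 : T.chX φ σ m ≠ 0 ↔ genericPoint X ∈ X.basicOpen (T.chX φ σ m) := by
    rw [Ne, ← AlgebraicGeometry.basicOpen_eq_bot_iff]
    constructor
    · intro hb
      refine gen_mem _ ?_
      rw [← TopologicalSpace.Opens.ne_bot_iff_nonempty]
      exact hb
    · intro hb e
      rw [e] at hb
      exact hb
  rw [h1]
  have h2 : X.basicOpen (T.chX φ σ m) = opX φ (Y.basicOpen (T.chi σ m)) :=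
    (Scheme.preimage_basicOpen φ (T.chi σ m)).symm
  rw [h2, T.basicOpen_chi]
  show ptX φ (genericPoint X) ∈ T.U (F.faceC σ m) ↔ _
  rw [T.mem_U_iff]
  constructor
  · intro k x hx
    exact (k hx).2
  · intro k x hx
    exact ⟨h hx, k x hx⟩

theorem isDomain_UX {σ : F.cones} (h : (T.tau φ).1 ⊆ σ.1) : IsDomain Γ(X, T.UX φ σ) := by
  have hη : genericPoint X ∈ T.UX φ σ := T.mem_U_iff.2 h
  haveI : Nonempty (T.UX φ σ) := ⟨⟨_, hη⟩⟩
  infer_instance

theorem resX_injective {σ τ : F.cones} (h : (T.tau φ).1 ⊆ τ.1) (h' : τ.1 ⊆ σ.1) :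
    Function.Injective (X.presheaf.map (homOfLE (T.UX_mono φ h')).op) := by
  have hη : genericPoint X ∈ T.UX φ τ := T.mem_U_iff.2 h
  haveI : Nonempty (T.UX φ τ) := ⟨⟨_, hη⟩⟩
  exact AlgebraicGeometry.map_injective_of_isIntegral X (homOfLE (T.UX_mono φ h'))

end generic

end Toric

end Pool.Agent.TD
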