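import Pool.Agent.TD.X.Reps
import Pool.Agent.TD.X.Chart
import Pool.Agent.TD.X1.GC
import Pool.Agent.TD.X1.Wt
import Pool.Agent.TD.R.S8
import Pool.Agent.TD.X3.Main
import Pool.Agent.TD.X3.Star
import Pool.Agent.TD.X3.Inj
import Pool.Agent.TD.X3.Chart

/-!
# Section X: forms near the fibres of `X^an → Trop(X)`
-/

open scoped ContDiff Topology NNReal
open AlgebraicGeometry CategoryTheory

namespace Pool.Agent.TD

namespace Toric

variable {K : Type} [NormedField K] {X Y : Scheme.{0}} {n : ℕ} {F : Fan n} {ι : Str K Y}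
  (T : Toric F Y ι) (φ : X ⟶ Y)

/-- Closed germs of type `(p,0)` on `Trop(X)` are determined by their pull backs. -/
theorem fibX_inj [IsUltrametricDist K] [IsClosedImmersion φ] (hX : T.SmoothX φ) (w : T.TropX φ)
    {p : ℕ} (a : (T.lsX φ).G p 0) (ha : (T.lsX φ).ddS p 0 w (a.1 w) = 0)
    (h : ∀ z, (T.morX φ).toFun z = w → ((T.morX φ).pullG p 0 a).1 z = 0) : a.1 w = 0 := by
  have := T.t2X φ
  have := T.locallyCompactX φ
  have := T.locallyCompact_TropX φ
  have hprop : IsProperMap (T.morX φ).toFun := isProperMap_iff_isCompact_preimage.2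
    ⟨(T.morX φ).cont, fun {C} hC => T.isProp_morX φ C hC⟩
  refine X3.inj_of_descend (T.morX φ) (hX.starAt w) ⟨Set.univ, Filter.univ_mem, ?_⟩
    (T.isProp_morX φ _ isCompact_singleton) ?_ ?_ (a.1 w) ha ?_
  · rw [(T.surjective_morX φ).range_eq]
  · intro W hW hsub
    have hcl : IsClosed ((T.morX φ).toFun '' Wᶜ) := hprop.isClosedMap _ hW.isClosed_compl
    refine ⟨((T.morX φ).toFun '' Wᶜ)ᶜ, hcl.isOpen_compl.mem_nhds ?_, ?_⟩
    · rintro ⟨z, hz, e⟩
      exact hz (hsub e)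
    · intro z hz
      by_contra h1
      exact hz ⟨z, h1, rfl⟩
  · intro z hz
    exact X3.an_finConv (T.affine_UX φ (T.tropX φ z).cone) (T.finiteTypeX φ _) z
      ((T.mem_UX_iff φ).2 (Set.Subset.refl _))
  · rintro z rfl
    rw [Mor.pullY_rfl]
    exact h z rfl

section arr

variable [IsIntegral X] {w : T.TropX φ}

/-- The fibre of the tropicalization map in the chart. -/
theorem mem_Fset_iff (z : An X (Str.pb φ ι)) :
    z ∈ X3.Fset (X1.axE T φ w.1.cone).toRingHom (X1.axE_alg T φ w.1.cone)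
      {z | X2.tr (X1.chi T φ (perpM (X1.gc T φ).1) w.1.cone) z =
        X1.fn (X1.dM (perpM (X1.gc T φ).1) w.1.cone) w.1} ↔ (T.morX φ).toFun z = w := by
  have hw := X1.gc_le_of_mem T φ w.2
  constructor
  · rintro ⟨h, hz⟩
    exact Subtype.ext ((X1.tr_eq_iff T φ hw (Set.Subset.refl _) ⟨z, h⟩).1 hz)
  · intro e
    have e' : T.tropX φ z = w.1 := congrArg Subtype.val e
    have h : z ∈ An.opn (Str.pb φ ι) (opX φ (T.U w.1.cone)) := by
      rw [← X1.tropX_mem_opn, e']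
      exact Set.Subset.refl _
    exact ⟨h, (X1.tr_eq_iff T φ hw (Set.Subset.refl _) ⟨z, h⟩).2 e'⟩

variable [IsUltrametricDist K] [CompleteSpace K] [IsClosedImmersion φ]

/-- The fibres of `X^an → Trop(X)` are arrangement fibres. -/
theorem exists_arrX (hX : T.SmoothX φ) (w : T.TropX φ) :
    ∃ (E : Type) (_ : Finite E) (e0 : E)
      (ch : E → X1.dM (perpM (X1.gc T φ).1) w.1.cone) (ρ : E → ℝ≥0) (B : Set E)
      (c0 : (Bᶜ : Set E) → K) (c : (Bᶜ : Set E) → (B \ {e0} : Set E) → K),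
      (∀ e, (ch e).1.1 ∈ perpM w.1.cone.1) ∧
      ArrFib K (fun e => X1.chi T φ (perpM (X1.gc T φ).1) w.1.cone (ch e)) ρ e0 B c0 c
        {z | X2.tr (X1.chi T φ (perpM (X1.gc T φ).1) w.1.cone) z =
          X1.fn (X1.dM (perpM (X1.gc T φ).1) w.1.cone) w.1} := by
  have hw := X1.gc_le_of_mem T φ w.2
  obtain ⟨C, hwU, hC⟩ := hX.chart w.1 w.2
  obtain ⟨x, y, U, hG⟩ := X1.exists_gchart (σ := w.1.cone)
    (fun b hb => X1.gc_le_of_mem T φ hb) hC w.2 (Set.Subset.refl _) hwU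
  rw [← X1.range_tr'] at hG
  have hd := X1.isDomain T φ (σ := X1.gc T φ) (Set.Subset.refl _)
  obtain ⟨I', E', _, _, t', y', M', e0', U', δ', L', ch, ρ, B, c0, c, -, -, h3, -, h5⟩ :=
    R.exists_arrFib (X1.chars T φ hw) hG (fun m hm => X1.unit T φ m hm)
      (X1.wt_of T φ hw hX.weight)
  exact ⟨E', inferInstance, e0', ch, ρ, B, c0, c, fun e => TropPt.absv_ne_zero_iff.1 (h3 e), h5⟩

/-- Exactness near the fibres. -/
theorem fibX_exact (hX : T.SmoothX φ) (w : T.TropX φ) {p q : ℕ}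
    (c : (anLS X (Str.pb φ ι)).G p (q + 1))
    (hc : ∀ z, (T.morX φ).toFun z = w → (anLS X (Str.pb φ ι)).ddS p (q + 1) z (c.1 z) = 0) :
    ∃ e : (anLS X (Str.pb φ ι)).G p q, ∀ z, (T.morX φ).toFun z = w →
      c.1 z = (anLS X (Str.pb φ ι)).ddS p q z (e.1 z) := by
  have := T.t2X φ
  have := T.locallyCompactX φ
  obtain ⟨E, _, e0, ch, ρ, B, c0, c', -, S⟩ := T.exists_arrX φ hX w
  obtain ⟨e, he⟩ := X3.an_exact S (X1.affineX T φ w.1.cone) (X1.axE T φ w.1.cone)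
    (X1.axE_alg T φ w.1.cone) (T.cutOffX φ) c fun z hz => hc z ((T.mem_Fset_iff φ z).1 hz)
  exact ⟨e, fun z hz => he z ((T.mem_Fset_iff φ z).2 hz)⟩

/-- Closed forms of type `(p,0)` near the fibres come from `Trop(X)`. -/
theorem fibX_zero (hX : T.SmoothX φ) (w : T.TropX φ) {p : ℕ}
    (c : (anLS X (Str.pb φ ι)).G p 0)
    (hc : ∀ z, (T.morX φ).toFun z = w → (anLS X (Str.pb φ ι)).ddS p 0 z (c.1 z) = 0) :
    ∃ a : (T.lsX φ).G p 0, (T.lsX φ).ddS p 0 w (a.1 w) = 0 ∧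
      ∀ z, (T.morX φ).toFun z = w → c.1 z = ((T.morX φ).pullG p 0 a).1 z := by
  classical
  have := T.t2X φ
  have := T.locallyCompactX φ
  have := T.locallyCompact_TropX φ
  obtain ⟨E, _, e0, ch, ρ, B, c0, c', hch, S⟩ := T.exists_arrX φ hX w
  obtain ⟨N, ⟨en0⟩⟩ := Finite.exists_equiv_fin {e : E // e ≠ e0}
  let en : Fin N → E := fun j => (en0.symm j).1
  have hen : Set.range en = {e | e ≠ e0} := by
    ext e
    constructor
    · rintro ⟨j, rfl⟩
      exact (en0.symm j).2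
    · intro he
      exact ⟨en0 ⟨e, he⟩, by show (en0.symm (en0 ⟨e, he⟩)).1 = e; rw [en0.symm_apply_apply]⟩
  let m : Fin N → Fin n → ℤ := fun j => (ch (en j)).1.1
  have hm : ∀ j, m j ∈ perpM w.1.cone.1 := fun j => hch (en j)
  let g : Fin N → Σ V : X.Opens, Γ(X, V) := fun j => (T.morX φ).ix (m j)
  have hd : ∀ j, w ∈ (T.lsX φ).dom (m j) := fun j => hm j
  obtain ⟨α, hα⟩ := X3.an_zero S (X1.affineX T φ w.1.cone) (X1.axE T φ w.1.cone)
    (X1.axE_alg T φ w.1.cone) en hen g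
    (fun z hz j => by
      have e := (T.mem_Fset_iff φ z).1 hz
      refine (T.morX φ).dom_sub (m j) z ?_
      rw [e]
      exact hd j)
    (fun z hz j => by
      obtain ⟨h, -⟩ := hz
      filter_upwards [(An.isOpen_opn (ι := Str.pb φ ι) (opX φ (T.U w.1.cone))).mem_nhds h] with z' hz'
      show An.absv (opX φ (T.Um (m j))) (fnX φ (T.chiU (m j))) z' =
        An.absv (opX φ (T.U w.1.cone)) (fnX φ (T.chi w.1.cone ⟨m j, (ch (en j)).2⟩)) z'
      rw [← An.absv_map, ← An.absv_map]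
      exact T.absv_chiU (hm j) hz')
    c (fun z hz => hc z ((T.mem_Fset_iff φ z).1 hz))
  have hsf : (T.lsX φ).SFat w (cstR m α) := (T.lsX φ).sfat_cstR hd α
  obtain ⟨a, ha⟩ := (T.lsX φ).extend_germ (T.cutOff_lsX φ) hsf
  obtain ⟨hb, hab⟩ := ha.self_of_nhds
  refine ⟨a, ?_, ?_⟩
  · rw [hab, LogSpace.ddS_germ]
    exact (T.lsX φ).germ_of_eq_zero (dd_cst (isCst_cstR m α)) _
  · intro z hz
    obtain ⟨k, hk⟩ := hα z ((T.mem_Fset_iff φ z).2 hz)
    subst hz
    rw [hk, Mor.pullG_val, hab, Mor.pullS_germ]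
    rfl

end arr

end Toric

end Pool.Agent.TD
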