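import Pool.Agent.TD.H.Cx
import Pool.Agent.TD.Y.Final

/-!
# Section X: the comparison theorem for a proper morphism, from the statements on the fibres
-/

open scoped ContDiff Topology

namespace Pool.Agent.TD

variable {X Φ B Φ' : Type} [TopologicalSpace X] [TopologicalSpace B] {L : LogSpace X Φ}
  {L' : LogSpace B Φ'}

/-- The hypotheses of the comparison theorem. -/
structure Comp (m : Mor L L') : Prop where
  cut : L.CutOff
  cut' : L'.CutOff
  prop : m.IsProp
  star : ∀ b, L'.StarAt b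
  inj : ∀ b p (a : L'.G p 0), L'.ddS p 0 b (a.1 b) = 0 →
    (∀ z, m.toFun z = b → (m.pullG p 0 a).1 z = 0) → a.1 b = 0
  zero : ∀ b p (c : L.G p 0), (∀ z, m.toFun z = b → L.ddS p 0 z (c.1 z) = 0) →
    ∃ a : L'.G p 0, L'.ddS p 0 b (a.1 b) = 0 ∧
      ∀ z, m.toFun z = b → c.1 z = (m.pullG p 0 a).1 z
  exact : ∀ b p q (c : L.G p (q + 1)), (∀ z, m.toFun z = b → L.ddS p (q + 1) z (c.1 z) = 0) →
    ∃ e : L.G p q, ∀ z, m.toFun z = b → c.1 z = L.ddS p q z (e.1 z)

namespace Comp

variable {m : Mor L L'} [T2Space X] [LocallyCompactSpace X] [T2Space B] [LocallyCompactSpace B]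
  (h : Comp m)

include h

theorem properOn : ProperOn Set.univ m.toFun := by
  refine properOn_of_comp m.cont isClosed_univ fun Z hZ => ?_
  rw [Set.univ_inter]
  exact h.prop _ hZ

omit h [T2Space X] [LocallyCompactSpace X] [T2Space B] [LocallyCompactSpace B] in
theorem supp_pullG {p q : ℕ} (c : L'.G p q) {z : X} (hz : z ∈ L.supp (m.pullG p q c)) :
    m.toFun z ∈ L'.supp c := by
  intro h0
  apply hz
  rw [Mor.pullG_val]
  have h1 : c.1 (m.toFun z) = 0 := h0
  rw [h1, map_zero]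

/-- The complex of forms on `X`, pushed forward to `B`. -/
noncomputable def cxP (p : ℕ) : SCx B := (L.cx h.cut p).push h.properOn

/-- The class of a form. -/
noncomputable def clsP (p q : ℕ) : L.G p q →+ (h.cxP p).G q := (L.cx h.cut p).cls Set.univ q

theorem clsP_surj (p q : ℕ) : Function.Surjective (h.clsP p q) :=
  (L.cx h.cut p).cls_surjective q

theorem clsP_eq_zero {p q : ℕ} {c : L.G p q} : h.clsP p q c = 0 ↔ c = 0 := by
  have h1 := (L.cx h.cut p).cls_eq_zero (S := Set.univ) (q := q) (c := c)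
  refine Iff.trans h1 ?_
  constructor
  · intro h
    apply Subtype.ext
    funext z
    exact (L.disjoint_supp_iff p c Set.univ).1 h z trivial
  · rintro rfl
    exact (L.disjoint_supp_iff p 0 Set.univ).2 fun z _ => rfl

theorem clsP_inj {p q : ℕ} {c c' : L.G p q} (k : h.clsP p q c = h.clsP p q c') : c = c' := by
  rw [← sub_eq_zero] at k ⊢
  rw [← map_sub] at k
  exact h.clsP_eq_zero.1 k

theorem clsP_d (p q : ℕ) (c : L.G p q) :
    (h.cxP p).d q (h.clsP p q c) = h.clsP p (q + 1) (L.ddG p q c) := rfl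

theorem supp_clsP {p q : ℕ} (c : L.G p q) :
    (h.cxP p).supp (h.clsP p q c) = m.toFun '' (L.supp c) := by
  have k := (L.cx h.cut p).push_supp h.properOn c
  rw [Set.inter_univ] at k
  exact k

/-- The morphism of complexes with supports. -/
noncomputable def shom (p : ℕ) : SHom (L'.cx h.cut' p) (h.cxP p) where
  f q := (h.clsP p q).comp (m.pullG p q).toAddMonoidHom
  comm q c := congrArg (h.clsP p (q + 1)) (m.pullG_dd p q c)
  supp q c := by
    refine (h.supp_clsP (m.pullG p q c)).trans_subset ?_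
    rintro _ ⟨z, hz, rfl⟩
    exact supp_pullG c hz

theorem shom_f (p q : ℕ) (c : L'.G p q) :
    (h.shom p).f q c = h.clsP p q (m.pullG p q c) := rfl

theorem qiso (p : ℕ) (b : B) : (h.shom p).QIso {b} := by
  have hst := h.star b
  have key : ∀ (P : X → Prop),
      (∀ z ∈ (Set.univ : Set X) ∩ m.toFun ⁻¹' {b}, P z) ↔ ∀ z, m.toFun z = b → P z := by
    intro P
    constructor
    · intro h z hz
      exact h z ⟨trivial, hz⟩
    · rintro h z ⟨-, hz⟩
      exact h z hz
  refine ⟨?_, ?_⟩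
  · intro q c hc hb
    rcases q with _ | q
    · have h1 : (L.cx h.cut p).Bd (Set.univ ∩ m.toFun ⁻¹' {b}) 0 (m.pullG p 0 c) :=
        ((L.cx h.cut p).push_Bd h.properOn {b} (m.pullG p 0 c)).1 hb
      rw [L.cx_Bd_zero_iff h.cut, key] at h1
      have h2 := (L'.cx_Cl_iff h.cut' p {b} 0 c).1 hc b rfl
      rw [L'.cx_Bd_zero_iff h.cut']
      intro z hz
      rw [Set.mem_singleton_iff.1 hz]
      exact h.inj b p c h2 h1
    · exact L'.cx_Bd_of_star h.cut' p hst q c hc
  · intro q e he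
    obtain ⟨c, rfl⟩ := h.clsP_surj p q e
    have h1 : (L.cx h.cut p).Cl (Set.univ ∩ m.toFun ⁻¹' {b}) q c :=
      ((L.cx h.cut p).push_Cl h.properOn {b} c).1 he
    rw [L.cx_Cl_iff h.cut, key] at h1
    rcases q with _ | q
    · obtain ⟨a, ha, hac⟩ := h.zero b p c h1
      refine ⟨a, ?_, ?_⟩
      · exact (L'.cx_Cl_iff h.cut' p {b} 0 a).2 (by rintro _ rfl; exact ha)
      · have h2 : (L.cx h.cut p).Bd (Set.univ ∩ m.toFun ⁻¹' {b}) 0
            (c - m.pullG p 0 a) := by
          rw [L.cx_Bd_zero_iff h.cut, key]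
          intro z hz
          have h3 := hac z hz
          show c.1 z - (m.pullG p 0 a).1 z = 0
          rw [h3, sub_self]
        have h3 := ((L.cx h.cut p).push_Bd h.properOn {b} (c - m.pullG p 0 a)).2 h2
        have h4 : h.clsP p 0 (c - m.pullG p 0 a) =
            h.clsP p 0 c - (h.shom p).f 0 a := map_sub (h.clsP p 0) _ _
        rw [← h4]
        exact h3
    · obtain ⟨e, he'⟩ := h.exact b p q c h1
      refine ⟨(0 : L'.G p (q + 1)), ?_, ?_⟩
      · refine (L'.cx_Cl_iff h.cut' p {b} (q + 1) 0).2 ?_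
        rintro z -
        exact map_zero _
      · have h2 : (L.cx h.cut p).Bd (Set.univ ∩ m.toFun ⁻¹' {b}) (q + 1) c := by
          rw [L.cx_Bd_succ_iff h.cut]
          exact ⟨e, (key _).2 fun z hz => he' z hz⟩
        have h3 := ((L.cx h.cut p).push_Bd h.properOn {b} c).2 h2
        have h4 : h.clsP p (q + 1) c - (h.shom p).f (q + 1) (0 : L'.G p (q + 1)) =
            h.clsP p (q + 1) c := by
          rw [shom_f, map_zero, map_zero, sub_zero]
        rw [h4]
        exact h3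

theorem cxP_complete (p : ℕ) : (h.cxP p).Complete :=
  SCx.push_complete _ h.properOn (L.cx_complete h.cut p)

theorem bdG_iff {p q : ℕ} (c : L.G p q) : (h.cxP p).BdG q (h.clsP p q c) ↔ c ∈ L.Bf p q := by
  rcases q with _ | q
  · exact h.clsP_eq_zero
  · constructor
    · rintro ⟨e, he⟩
      obtain ⟨e, rfl⟩ := h.clsP_surj p q e
      rw [h.clsP_d] at he
      exact ⟨e, (h.clsP_inj he).symm⟩
    · rintro ⟨e, rfl⟩
      exact ⟨h.clsP p q e, rfl⟩

omit h [T2Space X] [LocallyCompactSpace X] [T2Space B] [LocallyCompactSpace B] in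
theorem gc_iff {p q : ℕ} (c : L.G p q) : c ∈ L.Gc p q ↔ IsCompact (L.supp c) := by
  constructor
  · rintro ⟨K, hK, h⟩
    refine hK.of_isClosed_subset (L.isClosed_supp c) fun z hz => ?_
    by_contra hz'
    exact hz (h z hz')
  · intro h
    refine ⟨_, h, fun z hz => ?_⟩
    by_contra h'
    exact hz h'

theorem gcY_iff {p q : ℕ} (c : L.G p q) : c ∈ L.Gc p q ↔
    IsCompact ((h.cxP p).supp (h.clsP p q c)) := by
  rw [h.supp_clsP]
  constructor
  · intro hc
    exact ((gc_iff c).1 hc).image m.cont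
  · intro hc
    refine ⟨_, h.prop _ hc, fun z hz => ?_⟩
    by_contra h'
    exact hz ⟨z, h', rfl⟩

theorem bdC_iff {p q : ℕ} (c : L.G p q) : (h.cxP p).BdC q (h.clsP p q c) ↔ c ∈ L.Bc p q := by
  rcases q with _ | q
  · exact h.clsP_eq_zero
  · constructor
    · rintro ⟨e, he1, he⟩
      obtain ⟨e, rfl⟩ := h.clsP_surj p q e
      rw [h.clsP_d] at he
      exact ⟨e, (h.gcY_iff e).2 he1, (h.clsP_inj he).symm⟩
    · rintro ⟨e, he1, rfl⟩
      exact ⟨h.clsP p q e, (h.gcY_iff e).1 he1, rfl⟩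

/-- The comparison theorem, in terms of forms. -/
theorem forms (E : CompactExhaustion B) (p q : ℕ) :
    ((∀ c ∈ L.Zf p q, ∃ a ∈ L'.Zf p q, c - m.pullG p q a ∈ L.Bf p q) ∧
    (∀ a ∈ L'.Zf p q, m.pullG p q a ∈ L.Bf p q → a ∈ L'.Bf p q)) ∧
    (∀ c ∈ L.Zc p q, ∃ a ∈ L'.Zc p q, c - m.pullG p q a ∈ L.Bc p q) ∧
    (∀ a ∈ L'.Zc p q, m.pullG p q a ∈ L.Bc p q → a ∈ L'.Bc p q) := by
  have hG := (h.shom p).qiso_global (L'.cx_complete h.cut' p) (h.cxP_complete p) E
    fun b => h.qiso p b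
  have hC := (h.shom p).qiso_compact (L'.cx_complete h.cut' p) (h.cxP_complete p) E
    fun b => h.qiso p b
  refine ⟨⟨?_, ?_⟩, ?_, ?_⟩
  · intro c hc
    have hc' : L.ddG p q c = 0 := hc
    obtain ⟨a, ha, hb⟩ := hG.2 q (h.clsP p q c) (by rw [h.clsP_d, hc', map_zero])
    refine ⟨a, ha, ?_⟩
    rw [shom_f, ← map_sub, h.bdG_iff] at hb
    exact hb
  · intro a ha hb
    have h1 := hG.1 q a ha (by rw [shom_f]; exact (h.bdG_iff _).2 hb)
    rcases q with _ | q
    · exact h1
    · obtain ⟨e, he⟩ := h1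
      exact ⟨e, he.symm⟩
  · intro c hc
    have hc' : L.ddG p q c = 0 := hc.1
    obtain ⟨a, ha1, ha, hb⟩ := hC.2 q (h.clsP p q c) ((h.gcY_iff c).1 hc.2)
      (by rw [h.clsP_d, hc', map_zero])
    refine ⟨a, ⟨ha, (gc_iff a).2 ha1⟩, ?_⟩
    rw [shom_f, ← map_sub, h.bdC_iff] at hb
    exact hb
  · intro a ha hb
    have h1 := hC.1 q a ((gc_iff a).1 ha.2) ha.1 (by rw [shom_f]; exact (h.bdC_iff _).2 hb)
    rcases q with _ | q
    · exact h1
    · obtain ⟨e, he1, he⟩ := h1
      exact ⟨e, (gc_iff e).2 he1, he.symm⟩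

end Comp

end Pool.Agent.TD
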