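import Pool.Agent.TD.X.Fib

/-!
# Section X: the comparison theorem for smooth tropicalizations
-/

open scoped ContDiff Topology
open AlgebraicGeometry CategoryTheory

namespace Pool.Agent.TD

namespace Toric

variable {K : Type} [NormedField K] [IsUltrametricDist K] [CompleteSpace K] {X Y : Scheme.{0}}
  {n : ℕ} {F : Fan n} {ι : Str K Y} (T : Toric F Y ι) (φ : X ⟶ Y) [IsIntegral X]
  [IsClosedImmersion φ]

theorem compX (hX : T.SmoothX φ) : Comp (T.morX φ) where
  cut := T.cutOffX φ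
  cut' := T.cutOff_lsX φ
  prop := T.isProp_morX φ
  star := hX.starAt
  inj w _ a ha h := T.fibX_inj φ hX w a ha h
  zero w _ c hc := T.fibX_zero φ hX w c hc
  exact w _ _ c hc := T.fibX_exact φ hX w c hc

theorem mainX (hX : T.SmoothX φ) (p q : ℕ) :
    IsoH (T.lsX φ) (anLS X (Str.pb φ ι)) (T.pbX φ (p := p) (q := q)) ∧
      IsoHc (T.lsX φ) (anLS X (Str.pb φ ι)) (T.pbX φ (p := p) (q := q)) :=
  T.isoX φ (T.compX φ hX) p q

end Toric

end Pool.Agent.TD
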