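import Pool.Agent.TD.X.An
import Pool.Agent.TD.Y.Final

/-!
# Section X: topology of `X^an` and `Trop(X)`, the tropicalization morphism
-/

open scoped ContDiff Topology
open AlgebraicGeometry CategoryTheory

namespace Pool.Agent.TD

section cut

variable {X Φ X' Φ' : Type} [TopologicalSpace X] [TopologicalSpace X'] {L : LogSpace X Φ}
  {L' : LogSpace X' Φ'}

theorem Mor.smooth (m : Mor L L') {g : X' → ℝ} (hg : L'.Smooth g) :
    L.Smooth (fun x => g (m.toFun x)) := by
  classical
  intro x
  obtain ⟨s, hs, a, ha, he⟩ := hg (m.toFun x)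
  refine ⟨s.image m.ix, ?_, fun y => a (fun f => y ⟨m.ix f.1, Finset.mem_image_of_mem m.ix f.2⟩),
    ?_, ?_⟩
  · intro f' hf'
    obtain ⟨f, hf, rfl⟩ := Finset.mem_image.1 hf'
    exact m.dom_sub f x (hs f hf)
  · exact ha.comp (contDiff_pi.2 fun f => contDiff_apply ℝ ℝ _)
  · have hd : ∀ᶠ w in 𝓝 (m.toFun x), ∀ f ∈ s, w ∈ L'.dom f := by
      rw [Filter.eventually_all_finset]
      exact fun f hf => (L'.isOpen_dom f).mem_nhds (hs f hf)
    filter_upwards [m.cont.continuousAt.eventually he, m.cont.continuousAt.eventually hd] with w h2 h3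
    refine Eq.trans h2 ?_
    congr 1
    funext f
    exact (m.lf_eq f.1 w (h3 f.1 f.2)).symm

/-- Cut-off functions restrict to subspaces. -/
theorem Mor.cutOff (m : Mor L L') (hm : Topology.IsInducing m.toFun) (h : L'.CutOff) :
    L.CutOff := by
  intro A V hA hV hAV
  obtain ⟨V', hV', rfl⟩ := hm.isOpen_iff.1 hV
  obtain ⟨g, hg, h1, C, hC, hCV, h0⟩ := h (m.toFun '' A) V' (hA.image m.cont) hV'
    (Set.image_subset_iff.2 hAV)
  refine ⟨fun x => g (m.toFun x), m.smooth hg, ?_, m.toFun ⁻¹' C, hC.preimage m.cont,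
    Set.preimage_mono hCV, fun z hz => h0 _ hz⟩
  exact (m.cont.tendsto_nhdsSet (Set.mapsTo_image _ _)).eventually h1

end cut

variable {K : Type} [NormedField K] {X Y : Scheme.{0}}

/-- The morphism `X^an → Y^an`. -/
noncomputable def anMor (φ : X ⟶ Y) (ι : Str K Y) : Mor (anLS X (Str.pb φ ι)) (anLS Y ι) where
  toFun := An.map φ ι
  cont := An.continuous_map
  ix := Fns.pb φ
  dom_sub f z h := ⟨h.1, by
    have h2 : An.absv f.1 f.2 (An.map φ ι z) ≠ 0 := h.2
    rw [An.absv_map] at h2
    exact h2⟩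
  lf_eq f z _ := by
    show Real.log (An.absv (opX φ f.1) (fnX φ f.2) z) = Real.log (An.absv f.1 f.2 (An.map φ ι z))
    rw [An.absv_map]

namespace Toric

variable {n : ℕ} {F : Fan n} {ι : Str K Y} (T : Toric F Y ι) (φ : X ⟶ Y)

theorem mem_TropX (z : An X (Str.pb φ ι)) : T.tropX φ z ∈ T.TropX φ := ⟨z, rfl⟩

theorem continuous_tropX : Continuous (T.tropX φ) := T.continuous_trop.comp An.continuous_map

/-- The tropicalization morphism `X^an → Trop(X)`. -/
noncomputable def morX : Mor (anLS X (Str.pb φ ι)) (T.lsX φ) where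
  toFun z := ⟨T.tropX φ z, z, rfl⟩
  cont := (T.continuous_tropX φ).subtype_mk _
  ix m := Fns.pb φ ⟨T.Um m, T.chiU m⟩
  dom_sub m z h := (anMor φ ι).dom_sub _ z (T.tropMor.dom_sub m (An.map φ ι z) h)
  lf_eq m z h := ((anMor φ ι).lf_eq _ z (T.tropMor.dom_sub m (An.map φ ι z) h)).trans
    (T.tropMor.lf_eq m (An.map φ ι z) h)

theorem surjective_morX : Function.Surjective (T.morX φ).toFun := by
  rintro ⟨_, z, rfl⟩
  exact ⟨z, rfl⟩

section closed

variable [IsUltrametricDist K] [IsClosedImmersion φ]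

include T

theorem t2X : T2Space (An X (Str.pb φ ι)) := by
  have := T.t2
  exact (An.isClosedEmbedding_map (φ := φ) (ι := ι)).isEmbedding.t2Space

theorem locallyCompactX : LocallyCompactSpace (An X (Str.pb φ ι)) := by
  have := T.locallyCompact
  exact (An.isClosedEmbedding_map (φ := φ) (ι := ι)).locallyCompactSpace

theorem cutOffX : (anLS X (Str.pb φ ι)).CutOff :=
  (anMor φ ι).cutOff (An.isInducing_map (φ := φ) (ι := ι)) T.cutOff

theorem cutOff_lsX : (T.lsX φ).CutOff :=
  ((tropLS F).incl (T.TropX φ)).cutOff Topology.IsInducing.subtypeVal cutOff_trop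

theorem isCompact_preimage_tropX {C : Set (TropPt F)} (hC : IsCompact C) :
    IsCompact (T.tropX φ ⁻¹' C) :=
  (An.isClosedEmbedding_map (φ := φ) (ι := ι)).isCompact_preimage (T.isCompact_preimage hC)

theorem isClosed_TropX : IsClosed (T.TropX φ) := by
  have h : IsProperMap (T.tropX φ) := isProperMap_iff_isCompact_preimage.2
    ⟨T.continuous_tropX φ, fun {C} hC => T.isCompact_preimage_tropX φ hC⟩
  exact h.isClosedMap.isClosed_range

theorem isClosedEmbedding_val : Topology.IsClosedEmbedding (Subtype.val : T.TropX φ → TropPt F) :=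
  (T.isClosed_TropX φ).isClosedEmbedding_subtypeVal

theorem locallyCompact_TropX : LocallyCompactSpace (T.TropX φ) :=
  (T.isClosedEmbedding_val φ).locallyCompactSpace

theorem exhaustion_TropX : Nonempty (CompactExhaustion (T.TropX φ)) := by
  have := T.locallyCompact_TropX φ
  obtain ⟨E⟩ := exists_exhaustion F
  have h1 : SigmaCompactSpace (TropPt F) := ⟨⟨E, E.isCompact, E.iUnion_eq⟩⟩
  have h2 : SigmaCompactSpace (T.TropX φ) := (T.isClosedEmbedding_val φ).sigmaCompactSpace
  exact ⟨CompactExhaustion.choice _⟩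

theorem isProp_morX : (T.morX φ).IsProp := by
  intro C hC
  have h1 : IsCompact (Subtype.val '' C) := hC.image continuous_subtype_val
  have h2 := T.isCompact_preimage_tropX φ h1
  convert h2 using 1
  ext z
  constructor
  · intro h
    exact ⟨_, h, rfl⟩
  · rintro ⟨b, hb, e⟩
    have : b = (T.morX φ).toFun z := Subtype.ext e
    rw [this] at hb
    exact hb

end closed

end Toric

end Pool.Agent.TD
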