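import Pool.Agent.TD.X.Gen
import Pool.Agent.TD.X.Top
import Pool.Agent.TD.S.ToricMain

/-!
# Section X: the statement layer for `Trop(X)`
-/

open scoped ContDiff Topology
open AlgebraicGeometry CategoryTheory

namespace Pool.Agent.TD

namespace Toric

variable {K : Type} [NormedField K] {n : ℕ} {F : Fan n} {X Y : Scheme.{0}} {ι : Str K Y}
  (T : Toric F Y ι)

theorem cix_dom (z : An Y ι) {f : Fin n → ℤ} (h : f ∈ perpM (T.minCone z.pt).1) :
    z ∈ (anLS Y ι).dom (T.cix z f) := by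
  classical
  have hzU := T.mem_minCone z.pt
  refine ⟨hzU, ?_⟩
  unfold cix
  simp only [dif_pos h]
  exact T.absv_chi_ne_zero h hzU

theorem cix_lf (z : An Y ι) {f : Fin n → ℤ} (h : f ∈ perpM (T.minCone z.pt).1) :
    ∀ᶠ z' in 𝓝 z, (anLS Y ι).lf (T.cix z f) z' = (anLS Y ι).lf (T.tropMor.ix f) z' := by
  classical
  have hzU := T.mem_minCone z.pt
  filter_upwards [(An.isOpen_opn (T.U (T.minCone z.pt))).mem_nhds hzU] with z' hz'
  show Real.log (An.absv _ (T.cix z f).2 z') =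
    Real.log (An.absv (T.Um f) (T.chiU f) z')
  unfold cix
  simp only [dif_pos h]
  rw [T.absv_chiU h hz']

variable (φ : X ⟶ Y)

theorem reps_pbX {p q : ℕ} : Reps (T.morX φ) (T.pbX φ (p := p) (q := q)) := by
  classical
  intro a ha z
  obtain ⟨s, hs, hd⟩ := ha.1 ((T.morX φ).toFun z)
  have hs' : IsSF s (a ((T.morX φ).toFun z)) := hs
  have hd' : ∀ f ∈ s, f ∈ perpM (T.minCone (An.map φ ι z).pt).1 := fun f hf => hd f hf
  have h1 : ∀ f ∈ s, z ∈ (anLS X (Str.pb φ ι)).dom (Fns.pb φ (T.cix (An.map φ ι z) f)) :=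
    fun f hf => (anMor φ ι).dom_sub _ z (T.cix_dom (An.map φ ι z) (hd' f hf))
  have h2 : ∀ f ∈ s, z ∈ (anLS X (Str.pb φ ι)).dom ((T.morX φ).ix f) := fun f hf =>
    (T.morX φ).dom_sub f z (hd f hf)
  have h3 : ∀ f ∈ s, ∀ᶠ z' in 𝓝 z,
      (anLS X (Str.pb φ ι)).lf (Fns.pb φ (T.cix (An.map φ ι z) f)) z' =
      (anLS X (Str.pb φ ι)).lf ((T.morX φ).ix f) z' := by
    intro f hf
    filter_upwards [(An.continuous_map (φ := φ) (ι := ι)).continuousAt.eventually
      (T.cix_lf (An.map φ ι z) (hd' f hf))] with z' hz'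
    have e : ∀ g : Fns Y, (anLS X (Str.pb φ ι)).lf (Fns.pb φ g) z' =
        (anLS Y ι).lf g (An.map φ ι z') := by
      intro g
      show Real.log (An.absv (opX φ g.1) (fnX φ g.2) z') =
        Real.log (An.absv g.1 g.2 (An.map φ ι z'))
      rw [An.absv_map]
    rw [e, hz']
    exact (e _).symm
  have k1 : (anLS X (Str.pb φ ι)).SFat z (pullR (fun m => Fns.pb φ (T.cix (An.map φ ι z) m))
      (a ((T.morX φ).toFun z))) := by
    refine ⟨s.image _, hs'.pullR, ?_⟩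
    intro f hf
    obtain ⟨g, hg, rfl⟩ := Finset.mem_image.1 hf
    exact h1 g hg
  have k2 : (anLS X (Str.pb φ ι)).SFat z (pullR (T.morX φ).ix (a ((T.morX φ).toFun z))) :=
    (T.morX φ).sfat (ha.1 _)
  exact ((anLS X (Str.pb φ ι)).germ_eq_iff k1 k2).1
    ((anLS X (Str.pb φ ι)).germ_pullR_congr _ (T.morX φ).ix hs' h1 h2 h3 k1 k2)

/-- The final statement from the hypotheses on the fibres. -/
theorem isoX [IsUltrametricDist K] [IsClosedImmersion φ] (h : Comp (T.morX φ)) (p q : ℕ) :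
    IsoH (T.lsX φ) (anLS X (Str.pb φ ι)) (T.pbX φ (p := p) (q := q)) ∧
      IsoHc (T.lsX φ) (anLS X (Str.pb φ ι)) (T.pbX φ (p := p) (q := q)) := by
  have := T.t2X φ
  have := T.locallyCompactX φ
  have := T.locallyCompact_TropX φ
  obtain ⟨E⟩ := T.exhaustion_TropX φ
  obtain ⟨⟨h1, h2⟩, h3, h4⟩ := h.forms E p q
  exact ⟨isoH_of (T.reps_pbX φ) h1 h2, isoHc_of (T.reps_pbX φ) h.prop h3 h4⟩

end Toric

end Pool.Agent.TD
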